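import Pool.Agent.Helper91.KZ.StM

/-!
# MP_1d885e_al: module ARI, descent of norm classes
-/

namespace Pool.Agent.Helper31.KZ

open Pool.Agent.Helper91.KZ Polynomial TensorProduct

universe u

theorem ARI (hAR1 : ST_AR1.{u}) : ST_ARI.{u} := by
  intro E T Z _ _ _ _ _ _ _ _ p z hp hT hZ hz hyp
  obtain ⟨τ, hτ⟩ := hAR1 E T Z z hz hyp
  set m := Module.finrank E Z with hm
  set c : E := Algebra.norm E z with hc
  have hc0 : c ≠ 0 := by
    rw [hc, Ne, Algebra.norm_eq_zero_iff]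
    exact hz
  -- the exponent
  have hcop : Nat.Coprime m p := (hp.coprime_iff_not_dvd.mpr hZ).symm
  obtain ⟨n, v, hn⟩ : ∃ n v : ℕ, n * m = 1 + p * v := by
    obtain ⟨n, hn⟩ := Nat.exists_mul_mod_eq_one_of_coprime hcop hp.one_lt
    refine ⟨n, m * n / p, ?_⟩
    have := Nat.mod_add_div (m * n) p
    rw [hn.2] at this
    rw [mul_comm n m]
    exact this.symm
  have hfr : Module.finrank Z (Z ⊗[E] T) = p := by
    rw [Module.finrank_baseChange, hT]
  have hnz : Algebra.norm Z (algebraMap Z (Z ⊗[E] T) z) = z ^ p := by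
    rw [Algebra.norm_algebraMap, hfr]
  have h1 : Algebra.norm Z (τ ^ n) * algebraMap E Z (c ^ n) = z * (z ^ p) ^ v := by
    rw [map_pow, map_pow, ← mul_pow, ← hτ, ← pow_mul, ← pow_mul, ← pow_succ', mul_comm m n, hn,
      add_comm]
  have h2 : Algebra.norm Z (τ ^ n) ≠ 0 := by
    intro h0
    rw [h0, zero_mul] at h1
    exact mul_ne_zero hz (pow_ne_zero _ (pow_ne_zero _ hz)) h1.symm
  obtain ⟨s, hs⟩ : ∃ s : Z ⊗[E] T, τ ^ n * s = 1 := by
    have h3 : LinearMap.det (Algebra.lmul Z (Z ⊗[E] T) (τ ^ n)) ≠ 0 := h2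
    have h4 := (LinearMap.equivOfDetNeZero _ h3).surjective 1
    obtain ⟨s, hs⟩ := h4
    exact ⟨s, hs⟩
  have h5 : Algebra.norm Z (τ ^ n) * Algebra.norm Z s = 1 := by
    rw [← map_mul, hs, map_one]
  refine ⟨c ^ n, s * (algebraMap Z (Z ⊗[E] T) z) ^ v, pow_ne_zero _ hc0, ?_⟩
  rw [map_mul, map_pow (Algebra.norm Z), hnz]
  calc algebraMap E Z (c ^ n)
      = (Algebra.norm Z (τ ^ n) * Algebra.norm Z s) * algebraMap E Z (c ^ n) := by rw [h5, one_mul]
    _ = Algebra.norm Z s * (Algebra.norm Z (τ ^ n) * algebraMap E Z (c ^ n)) := by ring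
    _ = Algebra.norm Z s * (z * (z ^ p) ^ v) := by rw [h1]
    _ = _ := by ring

end Pool.Agent.Helper31.KZ
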