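import Pool.Agent.Helper91.KZ.StL

/-!
# MP_1d885e_al: module QBN, the `p`-th power of a sum of two elements which commute up to `ω`
-/

namespace Pool.Agent.Helper31.KZ

open Pool.Agent.Helper91.KZ Polynomial TensorProduct

universe u

/-- the product of the factors `1 + ω ^ k X` -/
lemma prod_aux {W : Type u} [Field W] {p : ℕ} {ω : W} (hp : p.Prime) (hω : IsPrimitiveRoot ω p) :
    ∏ k ∈ Finset.range p, ((1 : W[X]) + C (ω ^ k) * X) = 1 - (-X) ^ p := by
  have hC : IsPrimitiveRoot (C ω : W[X]) p := hω.map_of_injective C_injective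
  have h1 := hC.pow_sub_pow_eq_prod_sub_mul 1 (-X) hp.pos
  rw [one_pow] at h1
  rw [h1]
  refine Finset.prod_nbij (fun k => (C ω : W[X]) ^ k) ?_ ?_ ?_ ?_
  · intro k _
    rw [mem_nthRootsFinset hp.pos, ← pow_mul, mul_comm, pow_mul, hC.pow_eq_one, one_pow]
  · intro a ha b hb hab
    exact hC.pow_inj (Finset.mem_range.mp ha) (Finset.mem_range.mp hb) hab
  · intro z hz
    have hz' : z ^ p = 1 := by
      have h2 := hz
      rw [Finset.mem_coe, mem_nthRootsFinset hp.pos] at h2
      exact h2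
    have : NeZero p := ⟨hp.ne_zero⟩
    obtain ⟨i, hi, rfl⟩ := hC.eq_pow_of_pow_eq_one hz'
    exact ⟨i, by simpa using hi, rfl⟩
  · intro k _
    simp only [map_pow]
    ring

theorem QBN : ST_QBN.{u} := by
  intro W K _ _ _ p ω u v hp hω h
  by_cases hu : u = 0
  · subst hu
    simp [zero_pow hp.ne_zero]
  obtain ⟨s, hv⟩ : ∃ s : K, v = u * s :=
    ⟨u⁻¹ * v, by rw [← mul_assoc, mul_inv_cancel₀ hu, one_mul]⟩
  set a : W →+* K := algebraMap W K with ha
  have hcom : ∀ (w : W) (x : K), a w * x = x * a w := fun w x => Algebra.commutes w x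
  have hsu : s * u = a ω * (u * s) := by
    have h1 : u * (s * u) = u * (a ω * (u * s)) := by
      have h2 := h
      rw [hv] at h2
      calc u * (s * u) = u * s * u := by rw [mul_assoc]
        _ = a ω * (u * (u * s)) := h2
        _ = u * (a ω * (u * s)) := by rw [← mul_assoc, hcom, mul_assoc]
    exact mul_left_cancel₀ hu h1
  have hsun : ∀ n : ℕ, s * u ^ n = a (ω ^ n) * (u ^ n * s) := by
    intro n
    induction n with
    | zero => simp
    | succ n ih =>
      calc s * u ^ (n + 1) = (s * u ^ n) * u := by rw [pow_succ, mul_assoc]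
        _ = a (ω ^ n) * (u ^ n * (s * u)) := by rw [ih, mul_assoc, mul_assoc]
        _ = a (ω ^ n) * (u ^ n * (a ω * (u * s))) := by rw [hsu]
        _ = a (ω ^ n) * (a ω * (u ^ n * (u * s))) := by
            rw [← mul_assoc (u ^ n), ← hcom, mul_assoc (a ω)]
        _ = a (ω ^ (n + 1)) * (u ^ (n + 1) * s) := by
            rw [pow_succ ω, map_mul, mul_assoc (a (ω ^ n)), pow_succ u, mul_assoc (u ^ n)]
  have hsum : ∀ n : ℕ, (u + v) ^ n =
      u ^ n * aeval s (∏ k ∈ Finset.range n, ((1 : W[X]) + C (ω ^ k) * X)) := by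
    intro n
    induction n with
    | zero => simp
    | succ n ih =>
      have h3 : aeval s ((1 : W[X]) + C (ω ^ n) * X) = 1 + a (ω ^ n) * s := by
        simp [aeval_C, ha]
      rw [pow_succ', ih, Finset.prod_range_succ, mul_comm (∏ k ∈ Finset.range n, _), map_mul, h3]
      have h4 : (u + v) * u ^ n = u ^ (n + 1) * (1 + a (ω ^ n) * s) := by
        rw [hv, add_mul, mul_assoc, hsun, pow_succ', mul_add, mul_one, mul_assoc u]
        congr 2
        rw [← mul_assoc, hcom, mul_assoc]
      rw [← mul_assoc, h4, mul_assoc]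
  have hvn : ∀ n : ℕ, v ^ n = a (ω ^ (∑ k ∈ Finset.range n, k)) * (u ^ n * s ^ n) := by
    intro n
    induction n with
    | zero => simp
    | succ n ih =>
      rw [pow_succ', ih, Finset.sum_range_succ, pow_add, map_mul]
      calc v * (a (ω ^ (∑ k ∈ Finset.range n, k)) * (u ^ n * s ^ n))
          = a (ω ^ (∑ k ∈ Finset.range n, k)) * (v * (u ^ n * s ^ n)) := by
            rw [← mul_assoc, ← hcom, mul_assoc]
        _ = a (ω ^ (∑ k ∈ Finset.range n, k)) * (u * (s * u ^ n) * s ^ n) := by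
            rw [hv, mul_assoc u s, mul_assoc u (s * u ^ n), mul_assoc s]
        _ = a (ω ^ (∑ k ∈ Finset.range n, k)) * (u * (a (ω ^ n) * (u ^ n * s)) * s ^ n) := by
            rw [hsun]
        _ = _ := by
            rw [← mul_assoc u, ← hcom, mul_assoc (a (ω ^ n)), mul_assoc (a (ω ^ n)), ← mul_assoc (a _)]
            congr 1
            rw [pow_succ' u, pow_succ' s]
            simp only [mul_assoc]
  rw [hsum p, prod_aux hp hω, hvn p]
  have h5 : aeval s ((1 : W[X]) - (-X) ^ p) = 1 - (-s) ^ p := by simp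
  rw [h5, mul_sub, mul_one, sub_eq_add_neg]
  congr 1
  rcases hp.eq_two_or_odd' with h2 | hodd
  · subst h2
    have hω1 : ω = -1 := hω.eq_neg_one_of_two_right
    have h6 : ∑ k ∈ Finset.range 2, k = 1 := by decide
    rw [h6, pow_one, hω1, neg_sq, map_neg, map_one, neg_mul, one_mul]
  · have h7 : ω ^ (∑ k ∈ Finset.range p, k) = 1 := by
      rw [hω.pow_eq_one_iff_dvd, Finset.sum_range_id]
      obtain ⟨m, hm⟩ := hodd
      refine ⟨m, ?_⟩
      rw [hm]
      have : (2 * m + 1) * (2 * m + 1 - 1) = ((2 * m + 1) * m) * 2 := by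
        rw [Nat.add_sub_cancel]
        ring
      rw [this, Nat.mul_div_cancel _ (by norm_num)]
    rw [h7, map_one, one_mul, hodd.neg_pow, mul_neg, neg_neg]

end Pool.Agent.Helper31.KZ
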